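import Pool.Agent.X233.VM.Stm

set_option autoImplicit false

namespace Pool.Agent.X50.VM
open OnePoint Matrix Pool.Agent.X233.VM

section
variable {F : Type} [Field F] [DecidableEq F]

lemma hh_smul (l : F) (t : Fˣ) (hl : l ≠ 1) (r : F) :
    hh l t hl • (r : OnePoint F) =
      if r + 1 = 0 then ∞ else ((((t : F) * (l * r + 1)) / (r + 1) : F) : OnePoint F) := by
  rw [OnePoint.smul_some_eq_ite]
  have h00 : (hh l t hl) 0 0 = l * t := rfl
  have h01 : (hh l t hl) 0 1 = t := rfl
  have h10 : (hh l t hl) 1 0 = 1 := rfl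
  have h11 : (hh l t hl) 1 1 = 1 := rfl
  rw [h00, h01, h10, h11, one_mul]
  have e : l * (t : F) * r + t = t * (l * r + 1) := by ring
  rw [e]

lemma main_eq {l : F} {t t' : Fˣ} {hl : l ≠ 1} {x y : F}
    (h : hh l t hl • (x : OnePoint F) = hh l t' hl • (y : OnePoint F)) :
    (x + 1 = 0 ∧ y + 1 = 0) ∨
      (x + 1 ≠ 0 ∧ y + 1 ≠ 0 ∧ (t : F) * (l * x + 1) * (y + 1) = t' * (l * y + 1) * (x + 1)) := by
  rw [hh_smul, hh_smul] at h
  by_cases hx : x + 1 = 0
  · by_cases hy : y + 1 = 0
    · exact Or.inl ⟨hx, hy⟩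
    · rw [if_pos hx, if_neg hy] at h
      exact absurd h (OnePoint.infty_ne_coe _)
  · by_cases hy : y + 1 = 0
    · rw [if_neg hx, if_pos hy] at h
      exact absurd h (OnePoint.coe_ne_infty _)
    · rw [if_neg hx, if_neg hy] at h
      have h' := OnePoint.coe_injective h
      rw [div_eq_div_iff hx hy] at h'
      exact Or.inr ⟨hx, hy, h'⟩

/-- the exceptional values -/
def bad (l l' r : F) : Prop :=
  r + 1 = 0 ∨ l * r + 1 = 0 ∨ r * l' + 1 = 0 ∨ l * (r * l') + 1 = 0

lemma bad_of_bad {l l' : F} {hl : l ≠ 1} {t t' : Fˣ} {r r' : F}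
    (h1 : hh l t hl • (r : OnePoint F) = hh l t' hl • (r' : OnePoint F))
    (h2 : hh l t hl • ((r * l' : F) : OnePoint F) = hh l t' hl • ((r' * l' : F) : OnePoint F))
    (hb : bad l l' r) : bad l l' r' := by
  have ht : (t : F) ≠ 0 := t.ne_zero
  have ht' : (t' : F) ≠ 0 := t'.ne_zero
  have key : ∀ x y : F, hh l t hl • (x : OnePoint F) = hh l t' hl • (y : OnePoint F) →
      (x + 1 = 0 ∨ l * x + 1 = 0) → (y + 1 = 0 ∨ l * y + 1 = 0) := by
    intro x y h hx
    rcases main_eq h with ⟨_, hy⟩ | ⟨hx1, hy1, he⟩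
    · exact Or.inl hy
    · right
      have hx2 : l * x + 1 = 0 := by
        rcases hx with hx | hx
        · exact absurd hx hx1
        · exact hx
      rw [hx2, mul_zero, zero_mul] at he
      have h3 := (mul_eq_zero.mp he.symm).resolve_right hx1
      exact (mul_eq_zero.mp h3).resolve_left ht'
  unfold bad at hb ⊢
  rcases hb with hb | hb | hb | hb
  · rcases key r r' h1 (Or.inl hb) with h | h
    · exact Or.inl h
    · exact Or.inr (Or.inl h)
  · rcases key r r' h1 (Or.inr hb) with h | h
    · exact Or.inl h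
    · exact Or.inr (Or.inl h)
  · rcases key (r * l') (r' * l') h2 (Or.inl hb) with h | h
    · exact Or.inr (Or.inr (Or.inl h))
    · exact Or.inr (Or.inr (Or.inr h))
  · rcases key (r * l') (r' * l') h2 (Or.inr hb) with h | h
    · exact Or.inr (Or.inr (Or.inl h))
    · exact Or.inr (Or.inr (Or.inr h))

/-- the quadratic polynomial -/
noncomputable def P (l l' r : F) : Polynomial F :=
  Polynomial.C (((l * r + 1) * (r * l' + 1) - (r + 1) * (l * (r * l') + 1)) * (l * l')) *
      Polynomial.X ^ 2 +
    Polynomial.C ((l * r + 1) * (r * l' + 1) * (1 + l * l')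
      - (r + 1) * (l * (r * l') + 1) * (l + l')) * Polynomial.X +
    Polynomial.C ((l * r + 1) * (r * l' + 1) - (r + 1) * (l * (r * l') + 1))

lemma P_ne {l l' r : F} (hl : l ≠ 1) (hl' : l' ≠ 1) (hb : ¬ bad l l' r) : P l l' r ≠ 0 := by
  intro h
  have h0 : (P l l' r).coeff 0 = 0 := by rw [h]; simp
  have h1 : (P l l' r).coeff 1 = 0 := by rw [h]; simp
  unfold P at h0 h1
  simp only [Polynomial.coeff_add, Polynomial.coeff_C_mul, Polynomial.coeff_X_pow,
    Polynomial.coeff_X, Polynomial.coeff_C] at h0 h1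
  norm_num at h0 h1
  unfold bad at hb
  push Not at hb
  obtain ⟨_, b2, b3, _⟩ := hb
  have h2 : (l * r + 1) * (r * l' + 1) * ((1 - l) * (1 - l')) = 0 := by
    linear_combination h1 - (l + l') * h0
  rcases mul_eq_zero.mp h2 with h3 | h3
  · rcases mul_eq_zero.mp h3 with h4 | h4
    · exact b2 h4
    · exact b3 h4
  · rcases mul_eq_zero.mp h3 with h4 | h4
    · exact hl (sub_eq_zero.mp h4).symm
    · exact hl' (sub_eq_zero.mp h4).symm

lemma P_root {l l' : F} {hl : l ≠ 1} {t t' : Fˣ} {r r' : F}
    (h1 : hh l t hl • (r : OnePoint F) = hh l t' hl • (r' : OnePoint F))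
    (h2 : hh l t hl • ((r * l' : F) : OnePoint F) = hh l t' hl • ((r' * l' : F) : OnePoint F))
    (hb : ¬ bad l l' r) : (P l l' r).eval r' = 0 := by
  have ht : (t : F) ≠ 0 := t.ne_zero
  have ht' : (t' : F) ≠ 0 := t'.ne_zero
  unfold bad at hb
  push Not at hb
  obtain ⟨b1, b2, b3, b4⟩ := hb
  rcases main_eq h1 with ⟨hx, _⟩ | ⟨_, _, e1⟩
  · exact absurd hx b1
  rcases main_eq h2 with ⟨hx, _⟩ | ⟨_, _, e2⟩
  · exact absurd hx b3
  have h3 : (t : F) * t' * (((l * r + 1) * (r' + 1)) * ((l * (r' * l') + 1) * (r * l' + 1))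
      - ((l * r' + 1) * (r + 1)) * ((l * (r * l') + 1) * (r' * l' + 1))) = 0 := by
    linear_combination ((t' : F) * (l * (r' * l') + 1) * (r * l' + 1)) * e1
      - ((t' : F) * (l * r' + 1) * (r + 1)) * e2
  have h4 := (mul_eq_zero.mp h3).resolve_left (mul_ne_zero ht ht')
  unfold P
  simp only [Polynomial.eval_add, Polynomial.eval_mul, Polynomial.eval_C, Polynomial.eval_pow,
    Polynomial.eval_X]
  linear_combination h4

end

theorem t_CNT : Pool.Agent.X233.VM.S_CNT := by
  classical
  intro F _ _ _ l l' hl0 hl hl0' hl'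
  set S := (Finset.univ.filter (fun z : (Fˣ × Fˣ) × (Fˣ × Fˣ) =>
      hh l z.1.1 hl • ((z.1.2 : F) : OnePoint F) = hh l z.2.1 hl • ((z.2.2 : F) : OnePoint F) ∧
      hh l z.1.1 hl • (((z.1.2 : F) * l' : F) : OnePoint F)
        = hh l z.2.1 hl • (((z.2.2 : F) * l' : F) : OnePoint F))) with hS
  set R : Finset Fˣ := Finset.univ.filter (fun u : Fˣ => bad l l' (u : F)) with hR
  have hR4 : R.card ≤ 4 := by
    have hsub : R ⊆ (Finset.univ.filter (fun u : Fˣ => (u : F) + 1 = 0)) ∪
        ((Finset.univ.filter (fun u : Fˣ => l * (u : F) + 1 = 0)) ∪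
        ((Finset.univ.filter (fun u : Fˣ => (u : F) * l' + 1 = 0)) ∪
        (Finset.univ.filter (fun u : Fˣ => l * ((u : F) * l') + 1 = 0)))) := by
      intro u hu
      have hu' : bad l l' (u : F) := (Finset.mem_filter.mp hu).2
      simp only [Finset.mem_union, Finset.mem_filter, Finset.mem_univ, true_and]
      exact hu'
    have c1 : (Finset.univ.filter (fun u : Fˣ => (u : F) + 1 = 0)).card ≤ 1 := by
      rw [Finset.card_le_one]
      intro a ha b hb
      simp only [Finset.mem_filter, Finset.mem_univ, true_and] at ha hb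
      apply Units.ext
      linear_combination ha - hb
    have c2 : (Finset.univ.filter (fun u : Fˣ => l * (u : F) + 1 = 0)).card ≤ 1 := by
      rw [Finset.card_le_one]
      intro a ha b hb
      simp only [Finset.mem_filter, Finset.mem_univ, true_and] at ha hb
      apply Units.ext
      apply mul_left_cancel₀ hl0
      linear_combination ha - hb
    have c3 : (Finset.univ.filter (fun u : Fˣ => (u : F) * l' + 1 = 0)).card ≤ 1 := by
      rw [Finset.card_le_one]
      intro a ha b hb
      simp only [Finset.mem_filter, Finset.mem_univ, true_and] at ha hb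
      apply Units.ext
      apply mul_right_cancel₀ hl0'
      linear_combination ha - hb
    have c4 : (Finset.univ.filter (fun u : Fˣ => l * ((u : F) * l') + 1 = 0)).card ≤ 1 := by
      rw [Finset.card_le_one]
      intro a ha b hb
      simp only [Finset.mem_filter, Finset.mem_univ, true_and] at ha hb
      apply Units.ext
      apply mul_right_cancel₀ hl0'
      apply mul_left_cancel₀ hl0
      linear_combination ha - hb
    have u1 := Finset.card_union_le (Finset.univ.filter (fun u : Fˣ => (u : F) + 1 = 0))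
      ((Finset.univ.filter (fun u : Fˣ => l * (u : F) + 1 = 0)) ∪
        ((Finset.univ.filter (fun u : Fˣ => (u : F) * l' + 1 = 0)) ∪
        (Finset.univ.filter (fun u : Fˣ => l * ((u : F) * l') + 1 = 0))))
    have u2 := Finset.card_union_le (Finset.univ.filter (fun u : Fˣ => l * (u : F) + 1 = 0))
        ((Finset.univ.filter (fun u : Fˣ => (u : F) * l' + 1 = 0)) ∪
        (Finset.univ.filter (fun u : Fˣ => l * ((u : F) * l') + 1 = 0)))
    have u3 := Finset.card_union_le (Finset.univ.filter (fun u : Fˣ => (u : F) * l' + 1 = 0))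
        (Finset.univ.filter (fun u : Fˣ => l * ((u : F) * l') + 1 = 0))
    have u0 := Finset.card_le_card hsub
    omega
  have hsplit : S.card = (S.filter (fun z => z.1.2 ∈ R)).card
      + (S.filter (fun z => ¬ z.1.2 ∈ R)).card :=
    (Finset.card_filter_add_card_filter_not (s := S) (fun z => z.1.2 ∈ R)).symm
  have hB : (S.filter (fun z => z.1.2 ∈ R)).card ≤ 16 * (Fintype.card Fˣ) ^ 2 := by
    have hsub : S.filter (fun z => z.1.2 ∈ R) ⊆
        ((Finset.univ : Finset Fˣ) ×ˢ R) ×ˢ ((Finset.univ : Finset Fˣ) ×ˢ R) := by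
      intro z hz
      rw [Finset.mem_filter] at hz
      obtain ⟨hz, hzR⟩ := hz
      rw [hS, Finset.mem_filter] at hz
      obtain ⟨_, e1, e2⟩ := hz
      have hzb : bad l l' (z.1.2 : F) := by
        have := hzR
        rw [hR, Finset.mem_filter] at this
        exact this.2
      simp only [Finset.mem_product, Finset.mem_univ, true_and]
      refine ⟨hzR, ?_⟩
      rw [hR, Finset.mem_filter]
      exact ⟨Finset.mem_univ _, bad_of_bad e1 e2 hzb⟩
    refine (Finset.card_le_card hsub).trans ?_
    rw [Finset.card_product, Finset.card_product, Finset.card_univ]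
    have h5 : Fintype.card Fˣ * R.card ≤ Fintype.card Fˣ * 4 := Nat.mul_le_mul_left _ hR4
    calc Fintype.card Fˣ * R.card * (Fintype.card Fˣ * R.card)
        ≤ (Fintype.card Fˣ * 4) * (Fintype.card Fˣ * 4) := Nat.mul_le_mul h5 h5
      _ = 16 * (Fintype.card Fˣ) ^ 2 := by ring
  have hA : (S.filter (fun z => ¬ z.1.2 ∈ R)).card ≤ 2 * (Fintype.card Fˣ) ^ 2 := by
    have h6 := Finset.card_le_mul_card_image_of_maps_to
      (f := fun z : (Fˣ × Fˣ) × (Fˣ × Fˣ) => z.1) (s := S.filter (fun z => ¬ z.1.2 ∈ R))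
      (t := (Finset.univ : Finset (Fˣ × Fˣ))) (fun a _ => Finset.mem_univ _) 2 ?_
    · rw [Finset.card_univ, Fintype.card_prod] at h6
      rw [pow_two]
      exact h6
    · intro b _
      by_cases hbR : b.2 ∈ R
      · rw [Finset.filter_eq_empty_iff.mpr]
        · simp
        · intro z hz hzb
          rw [Finset.mem_filter] at hz
          apply hz.2
          rw [hzb]
          exact hbR
      · have hbb : ¬ bad l l' (b.2 : F) := by
          intro h
          apply hbR
          rw [hR, Finset.mem_filter]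
          exact ⟨Finset.mem_univ _, h⟩
        have hPne := P_ne hl hl' hbb
        have hmem : ∀ z ∈ (S.filter (fun z => ¬ z.1.2 ∈ R)).filter (fun z => z.1 = b),
            hh l b.1 hl • ((b.2 : F) : OnePoint F) = hh l z.2.1 hl • ((z.2.2 : F) : OnePoint F) ∧
            hh l b.1 hl • (((b.2 : F) * l' : F) : OnePoint F)
              = hh l z.2.1 hl • (((z.2.2 : F) * l' : F) : OnePoint F) ∧ z.1 = b := by
          intro z hz
          rw [Finset.mem_filter, Finset.mem_filter] at hz
          obtain ⟨⟨hz, _⟩, hzb⟩ := hz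
          rw [hS, Finset.mem_filter] at hz
          obtain ⟨_, e1, e2⟩ := hz
          rw [hzb] at e1 e2
          exact ⟨e1, e2, hzb⟩
        have hinj : Set.InjOn (fun z : (Fˣ × Fˣ) × (Fˣ × Fˣ) => (z.2.2 : F))
            ((S.filter (fun z => ¬ z.1.2 ∈ R)).filter (fun z => z.1 = b) : Set _) := by
          intro z hz w hw hzw
          obtain ⟨z1, _, z3⟩ := hmem z hz
          obtain ⟨w1, _, w3⟩ := hmem w hw
          have hzw' : (z.2.2 : F) = (w.2.2 : F) := hzw
          unfold bad at hbb
          push Not at hbb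
          obtain ⟨b1, b2, _, _⟩ := hbb
          have ht : ((b.1 : Fˣ) : F) ≠ 0 := b.1.ne_zero
          rcases main_eq z1 with ⟨hx, _⟩ | ⟨_, hy1, e1⟩
          · exact absurd hx b1
          rcases main_eq w1 with ⟨hx, _⟩ | ⟨_, _, e2⟩
          · exact absurd hx b1
          rw [← hzw'] at e2
          have hne : (l * (z.2.2 : F) + 1) * ((b.2 : F) + 1) ≠ 0 := by
            intro h0
            have h9 : (b.1 : F) * (l * (b.2 : F) + 1) * ((z.2.2 : F) + 1) = 0 := by
              rw [e1, mul_assoc, h0, mul_zero]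
            exact mul_ne_zero (mul_ne_zero ht b2) hy1 h9
          have h10 : (z.2.1 : F) = (w.2.1 : F) := by
            apply mul_right_cancel₀ hne
            linear_combination e2 - e1
          have h11 : z.2.1 = w.2.1 := Units.ext h10
          have h12 : z.2.2 = w.2.2 := Units.ext hzw'
          exact Prod.ext (z3.trans w3.symm) (Prod.ext h11 h12)
        rw [← Finset.card_image_of_injOn hinj]
        refine (Finset.card_le_card (t := (P l l' (b.2 : F)).roots.toFinset) ?_).trans ?_
        · intro x hx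
          rw [Finset.mem_image] at hx
          obtain ⟨z, hz, rfl⟩ := hx
          obtain ⟨z1, z2, _⟩ := hmem z hz
          rw [Multiset.mem_toFinset, Polynomial.mem_roots hPne]
          exact P_root z1 z2 hbb
        · refine (Multiset.toFinset_card_le _).trans ?_
          refine (Polynomial.card_roots' _).trans ?_
          exact Polynomial.natDegree_quadratic_le
  have htot : S.card ≤ 18 * (Fintype.card Fˣ) ^ 2 := by omega
  have hcast : ((Fintype.card F : ℝ) - 1) = ((Fintype.card Fˣ : ℕ) : ℝ) := by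
    rw [Fintype.card_units, Nat.cast_sub Fintype.card_pos]
    simp
  rw [hcast]
  exact_mod_cast htot

end Pool.Agent.X50.VM
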